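import Mathlib

/-!
MP_bd232a_nt, block ST1: Stirling's formula in the complex plane with error `O(1/|z|)`, by Gudermann's series.
-/

open Complex Filter Topology
open scoped Nat

namespace Pool.Agent.Helper22.BD

/-- `exp((z-1/2) log z - z)`. -/
noncomputable def stir (z : ℂ) : ℂ := exp ((z - 1 / 2) * log z - z)

/-- Gudermann's function `(z+1/2) log(1+1/z) - 1`. -/
noncomputable def gud (z : ℂ) : ℂ := (z + 1 / 2) * log (1 + 1 / z) - 1

/-- The quotient in Stirling's formula. -/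
noncomputable def stq (z : ℂ) : ℂ := Gamma z / (Real.sqrt (2 * Real.pi) * stir z)

/-- The region where the formula is proved. -/
def Reg (A : ℝ) (z : ℂ) : Prop := (0 ≤ z.re ∧ 1 ≤ ‖z‖) ∨ (-A ≤ z.re ∧ 1 ≤ |z.im|)

theorem Reg.one_le {A : ℝ} {z : ℂ} (h : Reg A z) : 1 ≤ ‖z‖ := by
  rcases h with h | h
  · exact h.2
  · exact h.2.trans (abs_im_le_norm z)

theorem Reg.ne_zero {A : ℝ} {z : ℂ} (h : Reg A z) : z ≠ 0 := by
  intro h0
  have := h.one_le
  rw [h0, norm_zero] at this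
  linarith

theorem Reg.add_nat {A : ℝ} {z : ℂ} (h : Reg A z) (k : ℕ) : Reg A (z + k) := by
  have hk : (0 : ℝ) ≤ k := Nat.cast_nonneg k
  rcases h with h | h
  · left
    refine ⟨by simp; linarith [h.1], ?_⟩
    refine h.2.trans ?_
    rw [← sq_le_sq₀ (norm_nonneg _) (norm_nonneg _), ← normSq_eq_norm_sq, ← normSq_eq_norm_sq,
      normSq_apply, normSq_apply]
    simp only [add_re, natCast_re, add_im, natCast_im, add_zero]
    nlinarith [h.1, mul_nonneg h.1 hk]
  · right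
    refine ⟨by simp; linarith [h.1], by simpa using h.2⟩

theorem Reg.lower {A : ℝ} {z : ℂ} (h : Reg A z) (k : ℕ) :
    ‖z‖ ^ 2 + (k : ℝ) ^ 2 ≤ (3 + 3 * A ^ 2) * ‖z + k‖ ^ 2 := by
  have hk : (0 : ℝ) ≤ k := Nat.cast_nonneg k
  rw [← normSq_eq_norm_sq, ← normSq_eq_norm_sq, normSq_apply, normSq_apply]
  simp only [add_re, natCast_re, add_im, natCast_im, add_zero]
  set x := z.re
  set y := z.im
  have key : 0 ≤ x → x * x + y * y + (k : ℝ) ^ 2 ≤ (3 + 3 * A ^ 2) * ((x + k) * (x + k) + y * y) := by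
    intro hx
    have h1 : x * x + y * y + (k : ℝ) ^ 2 ≤ (x + k) * (x + k) + y * y := by nlinarith [mul_nonneg hx hk]
    have h2 : 0 ≤ (x + k) * (x + k) + y * y := add_nonneg (mul_self_nonneg _) (mul_self_nonneg _)
    nlinarith [mul_nonneg (sq_nonneg A) h2]
  rcases h with h | h
  · exact key h.1
  · rcases le_or_gt 0 x with hx | hx
    · exact key hx
    · have hy : 1 ≤ y * y := by
        have := h.2
        have h3 : |y| * |y| = y * y := abs_mul_abs_self y
        nlinarith [abs_nonneg y]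
      have hx2 : x * x ≤ A ^ 2 * (y * y) := by
        have h4 : x * x ≤ A ^ 2 := by nlinarith [h.1]
        nlinarith [sq_nonneg A]
      have hk2 : (k : ℝ) ^ 2 ≤ 2 * ((x + k) * (x + k)) + 2 * (x * x) := by nlinarith [sq_nonneg (2 * x + k)]
      have h5 : 0 ≤ (x + k) * (x + k) := mul_self_nonneg _
      nlinarith [mul_nonneg (sq_nonneg A) h5]

theorem Reg.log_add_one {A : ℝ} {z : ℂ} (h : Reg A z) : log (z + 1) = log z + log (1 + 1 / z) := by
  have hz := h.ne_zero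
  have h1 : z + 1 = z * (1 + 1 / z) := by field_simp
  have hn : 0 < normSq z := normSq_pos.mpr hz
  have hre : (1 + 1 / z).re = 1 + z.re / normSq z := by simp [inv_re]
  have him : (1 + 1 / z).im = - z.im / normSq z := by simp [inv_im]
  have h0 : 1 + 1 / z ≠ 0 := by
    intro h0
    have : z + 1 = 0 := by rw [h1, h0, mul_zero]
    have h2 : z = -1 := by linear_combination this
    rcases h with h | h
    · rw [h2] at h
      simp at h
      linarith [h]
    · rw [h2] at h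
      simp at h
      linarith [h.2]
  rw [h1, log_mul_eq_add_log_iff hz h0]
  have a1 := neg_pi_lt_arg z
  have a2 := arg_le_pi z
  have b1 := neg_pi_lt_arg (1 + 1 / z)
  have b2 := arg_le_pi (1 + 1 / z)
  rcases lt_trichotomy z.im 0 with hi | hi | hi
  · have c1 : arg z < 0 := arg_neg_iff.mpr hi
    have c2 : 0 ≤ arg (1 + 1 / z) := by
      rw [arg_nonneg_iff, him]
      exact div_nonneg (by linarith) hn.le
    constructor <;> linarith
  · have hre0 : 0 ≤ z.re := by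
      rcases h with h | h
      · exact h.1
      · rw [hi] at h
        simp at h
        linarith [h.2]
    have c1 : |arg z| ≤ Real.pi / 2 := abs_arg_le_pi_div_two_iff.mpr hre0
    have c2 : |arg (1 + 1 / z)| < Real.pi / 2 := by
      rw [abs_arg_lt_pi_div_two_iff]
      left
      rw [hre]
      have := div_nonneg hre0 hn.le
      linarith
    rw [abs_le] at c1
    rw [abs_lt] at c2
    constructor <;> linarith [c1.1, c1.2, c2.1, c2.2]
  · have c1 : 0 ≤ arg z := arg_nonneg_iff.mpr hi.le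
    have c2 : arg (1 + 1 / z) < 0 := by
      rw [arg_neg_iff, him]
      exact div_neg_of_neg_of_pos (by linarith) hn
    constructor <;> linarith

theorem stir_ne_zero (z : ℂ) : stir z ≠ 0 := exp_ne_zero _

theorem sqrt_ne : ((Real.sqrt (2 * Real.pi) : ℝ) : ℂ) ≠ 0 := by
  rw [Ne, ofReal_eq_zero]
  have : 0 < Real.sqrt (2 * Real.pi) := Real.sqrt_pos.mpr (by positivity)
  exact this.ne'

theorem Reg.stir_add_one {A : ℝ} {z : ℂ} (h : Reg A z) : stir (z + 1) = z * stir z * exp (gud z) := by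
  unfold stir gud
  nth_rewrite 4 [← exp_log h.ne_zero]
  rw [← exp_add, ← exp_add, h.log_add_one]
  congr 1
  ring

theorem Reg.stq_add_one {A : ℝ} {z : ℂ} (h : Reg A z) : stq z = stq (z + 1) * exp (gud z) := by
  unfold stq
  rw [Gamma_add_one z h.ne_zero, h.stir_add_one]
  have h1 := stir_ne_zero z
  have h2 := sqrt_ne
  have h3 := h.ne_zero
  have h4 := exp_ne_zero (gud z)
  field_simp

theorem Reg.stq_add_nat {A : ℝ} {z : ℂ} (h : Reg A z) (n : ℕ) :
    stq z = stq (z + n) * exp (∑ k ∈ Finset.range n, gud (z + k)) := by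
  induction n with
  | zero => simp
  | succ n ih =>
    rw [ih, (h.add_nat n).stq_add_one, Finset.sum_range_succ, mul_assoc, ← exp_add]
    push_cast
    rw [add_comm (gud (z + n)), add_assoc]

theorem Reg.norm_gud_le {A : ℝ} {z : ℂ} (h : Reg A z) : ‖gud z‖ ≤ 54 / ‖z‖ ^ 2 := by
  have hz := h.ne_zero
  have h1 := h.one_le
  have hpos : 0 < ‖z‖ := by linarith
  rw [le_div_iff₀ (by positivity)]
  rcases le_or_gt 2 ‖z‖ with h2 | h2
  · set w : ℂ := 1 / z with hw
    have hwn : ‖w‖ = 1 / ‖z‖ := by rw [hw, norm_div, norm_one]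
    have hw2 : ‖w‖ ≤ 1 / 2 := by
      rw [hwn]
      exact one_div_le_one_div_of_le (by norm_num) h2
    have hzw : z * w = 1 := by rw [hw]; field_simp
    have hT : logTaylor 3 w = w - w ^ 2 / 2 := by
      simp [logTaylor, Finset.sum_range_succ]
      ring
    have hR : ‖log (1 + w) - (w - w ^ 2 / 2)‖ ≤ ‖w‖ ^ 3 := by
      have := norm_log_sub_logTaylor_le 2 (z := w) (by linarith)
      rw [hT] at this
      refine this.trans ?_
      have h3 : (1 - ‖w‖)⁻¹ ≤ 2 := by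
        rw [inv_le_comm₀ (by linarith) (by norm_num)]
        linarith
      have h4 : (0 : ℝ) ≤ ‖w‖ ^ 3 := by positivity
      norm_num
      nlinarith
    have hg : gud z = -(w ^ 2 / 4) + (z + 1 / 2) * (log (1 + w) - (w - w ^ 2 / 2)) := by
      unfold gud
      rw [← hw]
      linear_combination (1 - w / 2) * hzw
    have hn : ‖gud z‖ ≤ ‖w‖ ^ 2 / 4 + (‖z‖ + 1 / 2) * ‖w‖ ^ 3 := by
      rw [hg]
      refine (norm_add_le _ _).trans ?_
      rw [norm_neg, norm_div, norm_pow, norm_mul]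
      have h5 : ‖z + 1 / 2‖ ≤ ‖z‖ + 1 / 2 := (norm_add_le _ _).trans (by norm_num)
      have h6 : ‖(4 : ℂ)‖ = 4 := by norm_num
      rw [h6]
      gcongr
    have hw3 : ‖z‖ * ‖w‖ = 1 := by rw [← norm_mul, hzw, norm_one]
    have e1 : ‖w‖ ^ 2 * ‖z‖ ^ 2 = 1 := by rw [← mul_pow, mul_comm, hw3, one_pow]
    have e2 : ‖z‖ * ‖w‖ ^ 3 * ‖z‖ ^ 2 = 1 := by
      calc ‖z‖ * ‖w‖ ^ 3 * ‖z‖ ^ 2 = (‖z‖ * ‖w‖) ^ 3 := by ring
        _ = 1 := by rw [hw3, one_pow]
    have e3 : ‖w‖ ^ 3 * ‖z‖ ^ 2 = ‖w‖ := by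
      calc ‖w‖ ^ 3 * ‖z‖ ^ 2 = (‖z‖ * ‖w‖) ^ 2 * ‖w‖ := by ring
        _ = ‖w‖ := by rw [hw3, one_pow, one_mul]
    have : ‖gud z‖ * ‖z‖ ^ 2 ≤ (‖w‖ ^ 2 / 4 + (‖z‖ + 1 / 2) * ‖w‖ ^ 3) * ‖z‖ ^ 2 := by gcongr
    nlinarith
  · have hre : (1 + 1 / z) = (z + 1) / z := by field_simp
    have hz1 : 1 ≤ ‖z + 1‖ := by
      have := (h.add_nat 1).one_le
      simpa using this
    have hz2 : ‖z + 1‖ ≤ ‖z‖ + 1 := (norm_add_le _ _).trans (by norm_num)
    have hn : ‖1 + 1 / z‖ = ‖z + 1‖ / ‖z‖ := by rw [hre, norm_div]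
    have hlo : 1 / 2 ≤ ‖1 + 1 / z‖ := by
      rw [hn, le_div_iff₀ hpos]
      linarith
    have hhi : ‖1 + 1 / z‖ ≤ 2 := by
      rw [hn, div_le_iff₀ hpos]
      linarith
    have hlog : ‖log (1 + 1 / z)‖ ≤ 5 := by
      refine (norm_le_abs_re_add_abs_im _).trans ?_
      rw [log_re, log_im]
      have p1 : |arg (1 + 1 / z)| ≤ Real.pi := abs_arg_le_pi _
      have p2 : |Real.log ‖1 + 1 / z‖| ≤ Real.log 2 := by
        rw [abs_le]
        constructor
        · have := Real.log_le_log (by norm_num) hlo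
          rw [one_div, Real.log_inv] at this
          exact this
        · exact Real.log_le_log (by linarith) hhi
      have := Real.log_two_lt_d9
      have := Real.pi_lt_d2
      linarith
    have hb : ‖gud z‖ ≤ 13.5 := by
      unfold gud
      refine (norm_sub_le _ _).trans ?_
      rw [norm_mul, norm_one]
      have h5 : ‖z + 1 / 2‖ ≤ 2.5 := (norm_add_le _ _).trans (by norm_num; linarith)
      nlinarith [norm_nonneg (log (1 + 1 / z)), norm_nonneg (z + 1 / 2)]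
    nlinarith [norm_nonneg (gud z)]

theorem sum_inv_sq (R : ℝ) (hR : 1 ≤ R) (n : ℕ) :
    ∑ k ∈ Finset.range n, 1 / (R + k) ^ 2 ≤ 2 * (1 / R - 1 / (R + n)) := by
  induction n with
  | zero => simp
  | succ n ih =>
    rw [Finset.sum_range_succ]
    have hn : (0 : ℝ) ≤ n := Nat.cast_nonneg n
    have h1 : 1 ≤ R + n := by linarith
    have h2 : 1 / (R + n) ^ 2 ≤ 2 * (1 / (R + n) - 1 / (R + n + 1)) := by
      have h3 : 1 / (R + n) - 1 / (R + n + 1) = 1 / ((R + n) * (R + n + 1)) := by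
        field_simp
        ring
      rw [h3, mul_one_div, div_le_div_iff₀ (by positivity) (by positivity)]
      nlinarith
    push_cast
    rw [← add_assoc]
    linarith

theorem Reg.sum_gud_le {A : ℝ} {z : ℂ} (h : Reg A z) (n : ℕ) :
    ‖∑ k ∈ Finset.range n, gud (z + k)‖ ≤ (216 * (3 + 3 * A ^ 2)) / ‖z‖ := by
  have h1 := h.one_le
  have hpos : 0 < ‖z‖ := by linarith
  have hb : ∀ k : ℕ, ‖gud (z + k)‖ ≤ 108 * (3 + 3 * A ^ 2) * (1 / (‖z‖ + k) ^ 2) := by
    intro k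
    have hk : (0 : ℝ) ≤ k := Nat.cast_nonneg k
    refine (h.add_nat k).norm_gud_le.trans ?_
    have h2 := h.lower k
    have h3 : (‖z‖ + k) ^ 2 ≤ 2 * (‖z‖ ^ 2 + k ^ 2) := by nlinarith [sq_nonneg (‖z‖ - k)]
    have h4 : 0 < ‖z + k‖ := lt_of_lt_of_le one_pos (h.add_nat k).one_le
    rw [mul_one_div, div_le_div_iff₀ (by positivity) (by positivity)]
    nlinarith
  refine (norm_sum_le _ _).trans ((Finset.sum_le_sum fun k _ => hb k).trans ?_)
  rw [← Finset.mul_sum]
  have h5 := sum_inv_sq ‖z‖ h1 n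
  have h6 : (0 : ℝ) ≤ 1 / (‖z‖ + n) := by positivity
  have h7 : (0 : ℝ) ≤ 108 * (3 + 3 * A ^ 2) := by positivity
  calc 108 * (3 + 3 * A ^ 2) * ∑ k ∈ Finset.range n, 1 / (‖z‖ + k) ^ 2
      ≤ 108 * (3 + 3 * A ^ 2) * (2 * (1 / ‖z‖)) := by
        gcongr
        linarith
    _ = (216 * (3 + 3 * A ^ 2)) / ‖z‖ := by ring

theorem Reg.tendsto_stq {A : ℝ} {z : ℂ} (h : Reg A z) :
    Tendsto (fun n : ℕ => stq (z + ((n + 1 : ℕ) : ℂ))) atTop (𝓝 1) := by
  have hzj : ∀ j : ℕ, z + j ≠ 0 := fun j => (h.add_nat j).ne_zero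
  have hGam : ∀ n : ℕ, Gamma (z + ((n : ℕ) : ℂ)) = Gamma z * ∏ j ∈ Finset.range n, (z + j) := by
    intro n
    induction n with
    | zero => simp
    | succ n ih =>
      rw [Finset.prod_range_succ, ← mul_assoc, ← ih]
      push_cast
      rw [← add_assoc, Gamma_add_one _ (hzj n), mul_comm]
  have hG0 : Gamma z ≠ 0 := by
    refine Gamma_ne_zero fun m hm => hzj m ?_
    rw [hm]
    ring
  have hlim1 : Tendsto (fun n : ℕ => Gamma z / GammaSeq z n) atTop (𝓝 1) := by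
    have := (tendsto_const_nhds (x := Gamma z)).div (GammaSeq_tendsto_Gamma z) hG0
    rwa [div_self hG0] at this
  have hlim2 : Tendsto (fun n : ℕ => ((Stirling.stirlingSeq n / Real.sqrt Real.pi : ℝ) : ℂ)) atTop (𝓝 1) := by
    have hs : Real.sqrt Real.pi ≠ 0 := (Real.sqrt_pos.mpr Real.pi_pos).ne'
    have h1 := Stirling.tendsto_stirlingSeq_sqrt_pi.div_const (Real.sqrt Real.pi)
    rw [div_self hs] at h1
    have := (continuous_ofReal.tendsto _).comp h1
    rw [ofReal_one] at this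
    exact this
  have hlimg : Tendsto (fun n : ℕ => (n : ℂ) * ((z + 1) / n)) atTop (𝓝 (z + 1)) := by
    refine tendsto_const_nhds.congr' ?_
    filter_upwards [eventually_ne_atTop 0] with n hn
    have : (n : ℂ) ≠ 0 := Nat.cast_ne_zero.mpr hn
    field_simp
  have hlim3 := tendsto_nat_mul_log_one_add_of_tendsto hlimg
  have hlim4 : Tendsto (fun n : ℕ => log (1 + (z + 1) / n)) atTop (𝓝 0) := by
    have h1 : Tendsto (fun n : ℕ => ((n : ℂ))⁻¹) atTop (𝓝 0) := tendsto_inv_atTop_nhds_zero_nat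
    have h2 := h1.mul hlim3
    rw [zero_mul] at h2
    refine h2.congr' ?_
    filter_upwards [eventually_ne_atTop 0] with n hn
    have : (n : ℂ) ≠ 0 := Nat.cast_ne_zero.mpr hn
    field_simp
  have hlim5 : Tendsto (fun n : ℕ => exp (z + 1 - (n : ℂ) * log (1 + (z + 1) / n) -
      (z + 1 / 2) * log (1 + (z + 1) / n))) atTop (𝓝 1) := by
    have h1 := ((tendsto_const_nhds (x := z + 1)).sub hlim3).sub (hlim4.const_mul (z + 1 / 2))
    rw [sub_self, mul_zero, sub_zero] at h1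
    have := (continuous_exp.tendsto _).comp h1
    rw [exp_zero] at this
    exact this
  have hall := (hlim1.mul hlim2).mul hlim5
  rw [mul_one, mul_one] at hall
  refine hall.congr' ?_
  filter_upwards [eventually_ne_atTop 0] with n hn
  have hnC : (n : ℂ) ≠ 0 := Nat.cast_ne_zero.mpr hn
  have hnR : (0 : ℝ) < n := Nat.cast_pos.mpr (Nat.pos_of_ne_zero hn)
  have hP : ∏ j ∈ Finset.range (n + 1), (z + (j : ℂ)) ≠ 0 := Finset.prod_ne_zero_iff.mpr fun j _ => hzj j
  have hlog : log (z + ((n + 1 : ℕ) : ℂ)) = (Real.log n : ℂ) + log (1 + (z + 1) / n) := by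
    have e1 : z + ((n + 1 : ℕ) : ℂ) = ((n : ℝ) : ℂ) * (1 + (z + 1) / n) := by
      push_cast
      field_simp
      ring
    rw [e1, log_ofReal_mul hnR]
    intro h0
    have := hzj (n + 1)
    rw [e1, h0, mul_zero] at this
    exact this rfl
  have hfac : ((n ! : ℕ) : ℂ) = (Stirling.stirlingSeq n : ℂ) * exp ((1 / 2 : ℂ) * Real.log (2 * n) + n * Real.log n - n) := by
    have h1 : ((n ! : ℕ) : ℝ) = Stirling.stirlingSeq n * (Real.sqrt (2 * n) * (n / Real.exp 1) ^ n) := by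
      unfold Stirling.stirlingSeq
      have h2 : 0 < Real.sqrt (2 * n) := Real.sqrt_pos.mpr (by positivity)
      have h3 : (0 : ℝ) < (n / Real.exp 1) ^ n := by positivity
      field_simp
    have h4 : Real.sqrt (2 * n) = Real.exp ((1 / 2) * Real.log (2 * n)) := by
      rw [Real.sqrt_eq_rpow, Real.rpow_def_of_pos (by positivity), mul_comm]
    have h5 : ((n : ℝ) / Real.exp 1) ^ n = Real.exp (n * Real.log n - n) := by
      rw [← Real.exp_log (show (0 : ℝ) < n / Real.exp 1 by positivity), ← Real.exp_nat_mul,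
        Real.log_div hnR.ne' (Real.exp_pos 1).ne', Real.log_exp]
      congr 1
      ring
    have h6 : ((n ! : ℕ) : ℂ) = (((n ! : ℕ) : ℝ) : ℂ) := by push_cast; rfl
    rw [h6, h1, h4, h5, ← Real.exp_add]
    push_cast
    congr 2
    ring
  have hcpow : (n : ℂ) ^ z = exp (Real.log n * z) := by
    rw [cpow_def_of_ne_zero hnC]
    congr 2
    exact (natCast_log (n := n)).symm
  have hs2 : ((Real.sqrt (2 * Real.pi) : ℝ) : ℂ) = (Real.sqrt Real.pi : ℂ) * exp ((1 / 2 : ℂ) * Real.log 2) := by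
    have h4 : Real.sqrt 2 = Real.exp ((1 / 2) * Real.log 2) := by
      rw [Real.sqrt_eq_rpow, Real.rpow_def_of_pos (by positivity), mul_comm]
    rw [mul_comm (2 : ℝ), Real.sqrt_mul Real.pi_pos.le, h4]
    push_cast
    rfl
  have hspi : (Real.sqrt Real.pi : ℂ) ≠ 0 := by
    rw [Ne, ofReal_eq_zero]
    exact (Real.sqrt_pos.mpr Real.pi_pos).ne'
  have hsts : (Stirling.stirlingSeq n : ℂ) ≠ 0 := by
    intro h0
    rw [h0, zero_mul] at hfac
    exact Nat.cast_ne_zero.mpr (Nat.factorial_ne_zero n) hfac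
  unfold stq GammaSeq
  rw [hGam, hfac, hcpow, hs2]
  unfold stir
  rw [hlog]
  have hln : (Real.log (2 * n) : ℂ) = Real.log 2 + Real.log n := by
    rw [Real.log_mul (by norm_num) hnR.ne']
    push_cast
    rfl
  rw [hln]
  set Lg := log (1 + (z + 1) / (n : ℂ)) with hLg
  set ln : ℂ := (Real.log n : ℂ) with hlnn
  set l2 : ℂ := (Real.log 2 : ℂ) with hl2
  set P := ∏ j ∈ Finset.range (n + 1), (z + (j : ℂ)) with hPd
  set S : ℂ := (Stirling.stirlingSeq n : ℂ) with hSd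
  have hexp : exp (z + 1 - (n : ℂ) * Lg - (z + 1 / 2) * Lg) * (exp ((1 / 2 : ℂ) * l2) *
      exp ((z + ((n + 1 : ℕ) : ℂ) - 1 / 2) * (ln + Lg) - (z + ((n + 1 : ℕ) : ℂ)))) =
      exp (ln * z) * exp ((1 / 2 : ℂ) * (l2 + ln) + n * ln - n) := by
    rw [← exp_add, ← exp_add, ← exp_add]
    congr 1
    push_cast
    ring
  have e1 := exp_ne_zero (ln * z)
  have e2 := exp_ne_zero ((1 / 2 : ℂ) * (l2 + ln) + n * ln - n)
  have e3 := exp_ne_zero ((1 / 2 : ℂ) * l2)
  have e4 := exp_ne_zero ((z + ((n + 1 : ℕ) : ℂ) - 1 / 2) * (ln + Lg) - (z + ((n + 1 : ℕ) : ℂ)))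
  have e5 : ((Stirling.stirlingSeq n / Real.sqrt Real.pi : ℝ) : ℂ) = S / (Real.sqrt Real.pi : ℂ) := by push_cast; rfl
  rw [e5]
  set X1 := exp (ln * z)
  set X2 := exp ((1 / 2 : ℂ) * (l2 + ln) + n * ln - n)
  set X3 := exp ((1 / 2 : ℂ) * l2)
  set X4 := exp ((z + ((n + 1 : ℕ) : ℂ) - 1 / 2) * (ln + Lg) - (z + ((n + 1 : ℕ) : ℂ)))
  set X5 := exp (z + 1 - (n : ℂ) * Lg - (z + 1 / 2) * Lg)
  have e6 : X5 = X1 * X2 / (X3 * X4) := by
    rw [eq_div_iff (mul_ne_zero e3 e4)]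
    exact hexp
  rw [e6]
  field_simp

/-- **Stirling's formula** in the complex plane. -/
theorem stirling_complex (A : ℝ) : ∃ C : ℝ, 0 < C ∧ ∀ z : ℂ,
    ((0 ≤ z.re ∧ 1 ≤ ‖z‖) ∨ (-A ≤ z.re ∧ 1 ≤ |z.im|)) →
    ‖Gamma z / (Real.sqrt (2 * Real.pi) * exp ((z - 1 / 2) * log z - z)) - 1‖ ≤ C / ‖z‖ := by
  set B : ℝ := 216 * (3 + 3 * A ^ 2) with hB
  have hB0 : 0 < B := by positivity
  refine ⟨B * Real.exp B, by positivity, fun z h => ?_⟩
  have h : Reg A z := h
  have h1 := h.one_le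
  have hpos : 0 < ‖z‖ := by linarith
  have hbd : ∀ n : ℕ, ‖exp (∑ k ∈ Finset.range n, gud (z + k)) - 1‖ ≤ B * Real.exp B / ‖z‖ := by
    intro n
    set S := ∑ k ∈ Finset.range n, gud (z + k)
    have h2 : ‖S‖ ≤ B / ‖z‖ := h.sum_gud_le n
    have h3 := norm_exp_sub_sum_le_norm_mul_exp S 1
    simp only [Finset.range_one, Finset.sum_singleton, pow_zero, Nat.factorial_zero, Nat.cast_one, div_one,
      pow_one] at h3
    refine h3.trans ?_
    have h4 : B / ‖z‖ ≤ B := div_le_self hB0.le h1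
    calc ‖S‖ * Real.exp ‖S‖ ≤ (B / ‖z‖) * Real.exp B := by
          gcongr
          exact h2.trans h4
      _ = B * Real.exp B / ‖z‖ := by ring
  have hlim : Tendsto (fun n : ℕ => exp (∑ k ∈ Finset.range (n + 1), gud (z + k))) atTop (𝓝 (stq z)) := by
    have h2 := (tendsto_const_nhds (x := stq z)).div h.tendsto_stq one_ne_zero
    rw [div_one] at h2
    refine h2.congr' ?_
    filter_upwards [h.tendsto_stq.eventually_ne one_ne_zero] with n hn
    rw [Pi.div_apply, h.stq_add_nat (n + 1), mul_div_cancel_left₀ _ hn]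
  have := (hlim.sub_const 1).norm
  exact le_of_tendsto this (Eventually.of_forall fun n => hbd (n + 1))

end Pool.Agent.Helper22.BD
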