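import Pool.Agent.Helper22.BD.Stirling1

/-!
MP_bd232a_nt, block ST2: Stirling's formula for `Γ(λ s + a)` in vertical strips, both directions `Im s → ± ∞`.
-/

open Complex Filter Topology

namespace Pool.Agent.Helper22.BD

/-- If `w` and `w u` lie in the same open half plane and `Re u > 0`, then `log (w u) = log w + log u`. -/
theorem log_mul_of_im {w u : ℂ} (hu : 0 < u.re) (h : (0 < w.im ∧ 0 < (w * u).im) ∨ (w.im < 0 ∧ (w * u).im < 0)) :
    log (w * u) = log w + log u := by
  have hw0 : w ≠ 0 := by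
    rintro rfl
    simp at h
  have hu0 : u ≠ 0 := by
    rintro rfl
    simp at hu
  have hur : |arg u| < Real.pi / 2 := abs_arg_lt_pi_div_two_iff.mpr (Or.inl hu)
  rw [abs_lt] at hur
  have him : (w * u).im = ‖w‖ * ‖u‖ * Real.sin (arg w + arg u) := by
    have h1 : w * u = ((‖w‖ * ‖u‖ : ℝ) : ℂ) * exp ((arg w + arg u : ℝ) * I) := by
      conv_lhs => rw [← norm_mul_exp_arg_mul_I w, ← norm_mul_exp_arg_mul_I u]
      push_cast
      rw [add_mul, exp_add]
      ring
    rw [h1, im_ofReal_mul, exp_ofReal_mul_I_im]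
  have hpos : 0 < ‖w‖ * ‖u‖ := mul_pos (norm_pos_iff.mpr hw0) (norm_pos_iff.mpr hu0)
  rw [log_mul_eq_add_log_iff hw0 hu0]
  rcases h with ⟨h1, h2⟩ | ⟨h1, h2⟩
  · have a1 : 0 ≤ arg w := arg_nonneg_iff.mpr h1.le
    have a2 := arg_le_pi w
    refine ⟨by linarith [Real.pi_pos], ?_⟩
    by_contra hcon
    push Not at hcon
    have : Real.sin (arg w + arg u - Real.pi) > 0 :=
      Real.sin_pos_of_pos_of_lt_pi (by linarith) (by linarith [Real.pi_pos])
    rw [Real.sin_sub_pi] at this
    rw [him] at h2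
    nlinarith
  · have a1 : arg w < 0 := arg_neg_iff.mpr h1
    have a2 := neg_pi_lt_arg w
    refine ⟨?_, by linarith [Real.pi_pos]⟩
    by_contra hcon
    push Not at hcon
    have : 0 ≤ Real.sin (-(arg w + arg u) - Real.pi) :=
      Real.sin_nonneg_of_nonneg_of_le_pi (by linarith) (by linarith [Real.pi_pos])
    rw [Real.sin_sub_pi, Real.sin_neg, neg_neg] at this
    rw [him] at h2
    nlinarith

theorem norm_exp_sub_one_le' (x : ℂ) : ‖exp x - 1‖ ≤ ‖x‖ * Real.exp ‖x‖ := by
  have h3 := norm_exp_sub_sum_le_norm_mul_exp x 1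
  simpa using h3

/-- **Stirling's formula** for `Γ(λ s + a)` in a vertical strip. -/
theorem gamma_strip (lam : ℝ) (hlam : 0 < lam) (a : ℂ) (s1 s2 : ℝ) :
    ∃ C T : ℝ, 0 < C ∧ 1 ≤ T ∧ ∀ s : ℂ, s1 ≤ s.re → s.re ≤ s2 → T ≤ |s.im| →
      ‖Gamma (lam * s + a) / (Real.sqrt (2 * Real.pi) *
        exp (lam * s * log (lam * s) - lam * s + (a - 1 / 2) * log (lam * s))) - 1‖ ≤ C / |s.im| := by
  obtain ⟨C1, hC1, hst⟩ := stirling_complex (‖a‖ - lam * s1)
  set N := ‖a‖ with hN
  have hN0 : 0 ≤ N := norm_nonneg a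
  set K := (N + 2) * N ^ 2 + (N + 1) * N with hK
  have hK0 : 0 ≤ K := by positivity
  refine ⟨(2 * C1 + K) * Real.exp K / lam + 1, max 1 ((2 * N + 2) / lam), by positivity, le_max_left _ _, ?_⟩
  intro s hs1 hs2 hT
  have ht1 : 1 ≤ |s.im| := (le_max_left _ _).trans hT
  have ht2 : 2 * N + 2 ≤ lam * |s.im| := by
    have := (le_max_right _ _).trans hT
    rw [div_le_iff₀ hlam] at this
    linarith
  have htpos : 0 < |s.im| := by linarith
  set w : ℂ := lam * s with hw
  have hwim : w.im = lam * s.im := by simp [hw]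
  have hwre : w.re = lam * s.re := by simp [hw]
  have hwabs : |w.im| = lam * |s.im| := by rw [hwim, abs_mul, abs_of_pos hlam]
  have hwn : lam * |s.im| ≤ ‖w‖ := by
    rw [← hwabs]
    exact abs_im_le_norm w
  have hw0 : w ≠ 0 := by
    intro h0
    rw [h0, norm_zero] at hwn
    linarith
  have hwpos : 0 < ‖w‖ := by linarith
  set v : ℂ := a / w with hv
  have hvn : ‖v‖ = N / ‖w‖ := by rw [hv, norm_div]
  have hv2 : ‖v‖ ≤ 1 / 2 := by
    rw [hvn, div_le_iff₀ hwpos]
    linarith
  have hz : w + a = w * (1 + v) := by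
    rw [hv]
    field_simp
  have haim : |a.im| ≤ N := abs_im_le_norm a
  have hare : |a.re| ≤ N := abs_re_le_norm a
  have hu : 0 < (1 + v).re := by
    have h1 : |v.re| ≤ 1 / 2 := (abs_re_le_norm v).trans hv2
    rw [abs_le] at h1
    simp only [add_re, one_re]
    linarith [h1.1]
  have hsign : (0 < w.im ∧ 0 < (w * (1 + v)).im) ∨ (w.im < 0 ∧ (w * (1 + v)).im < 0) := by
    rw [← hz]
    simp only [add_im]
    rw [abs_le] at haim
    rcases lt_or_ge s.im 0 with h | h
    · right
      rw [abs_of_neg h] at ht2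
      constructor <;> rw [hwim] <;> linarith [haim.2]
    · left
      rw [abs_of_nonneg h] at ht2
      constructor <;> rw [hwim] <;> linarith [haim.1]
  have hlog : log (w + a) = log w + log (1 + v) := by
    rw [hz]
    exact log_mul_of_im hu hsign
  have hzim : lam * |s.im| - N ≤ |(w + a).im| := by
    have h1 := abs_sub_abs_le_abs_sub w.im (-a.im)
    rw [abs_neg, sub_neg_eq_add, hwabs] at h1
    rw [add_im]
    linarith
  have hzn : lam * |s.im| / 2 ≤ ‖w + a‖ := by
    refine le_trans ?_ (hzim.trans (abs_im_le_norm _))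
    linarith
  have hzpos : 0 < ‖w + a‖ := by
    refine lt_of_lt_of_le ?_ hzn
    positivity
  have hS := hst (w + a) (Or.inr ⟨by
    rw [add_re, hwre]
    rw [abs_le] at hare
    have := mul_le_mul_of_nonneg_left hs1 hlam.le
    linarith [hare.1], by linarith⟩)
  set E : ℂ := (w + a - 1 / 2) * log (1 + v) - a with hE
  have hEn : ‖E‖ ≤ K / ‖w‖ := by
    have e1 : E = (w + a - 1 / 2) * (log (1 + v) - v) + (a - 1 / 2) * v := by
      have hwv : w * v = a := by
        rw [hv]
        field_simp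
      rw [hE]
      linear_combination hwv
    have e2 : ‖log (1 + v) - v‖ ≤ ‖v‖ ^ 2 := by
      have := norm_log_one_add_sub_self_le (z := v) (by linarith)
      refine this.trans ?_
      have h3 : (1 - ‖v‖)⁻¹ ≤ 2 := by
        rw [inv_le_comm₀ (by linarith) (by norm_num)]
        linarith
      have h4 : (0 : ℝ) ≤ ‖v‖ ^ 2 := by positivity
      nlinarith
    have e3 : ‖w + a - 1 / 2‖ ≤ (N + 2) * ‖w‖ := by
      have h3 : ‖w + a - 1 / 2‖ ≤ ‖w‖ + N + 1 / 2 := by
        refine (norm_sub_le _ _).trans ?_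
        have := norm_add_le w a
        norm_num
        linarith
      nlinarith
    have e4 : ‖a - 1 / 2‖ ≤ N + 1 := by
      refine (norm_sub_le _ _).trans ?_
      norm_num
      linarith
    rw [e1]
    refine (norm_add_le _ _).trans ?_
    rw [norm_mul, norm_mul]
    have e5 : ‖w + a - 1 / 2‖ * ‖log (1 + v) - v‖ + ‖a - 1 / 2‖ * ‖v‖ ≤
        (N + 2) * ‖w‖ * ‖v‖ ^ 2 + (N + 1) * ‖v‖ := by gcongr
    refine e5.trans (le_of_eq ?_)
    rw [hvn, hK]
    field_simp
  have hEn2 : ‖E‖ ≤ K / (lam * |s.im|) := hEn.trans (by gcongr)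
  have hEK : ‖E‖ ≤ K := by
    refine hEn2.trans (div_le_self hK0 ?_)
    linarith
  have hmain : Gamma (w + a) / (Real.sqrt (2 * Real.pi) * exp (w * log w - w + (a - 1 / 2) * log w)) =
      Gamma (w + a) / (Real.sqrt (2 * Real.pi) * exp ((w + a - 1 / 2) * log (w + a) - (w + a))) * exp E := by
    have e1 : exp ((w + a - 1 / 2) * log (w + a) - (w + a)) = exp (w * log w - w + (a - 1 / 2) * log w) * exp E := by
      rw [← exp_add, hlog, hE]
      congr 1
      ring
    rw [e1]
    have h1 := exp_ne_zero (w * log w - w + (a - 1 / 2) * log w)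
    have h2 := exp_ne_zero E
    have h3 := sqrt_ne
    field_simp
  rw [hmain]
  set q : ℂ := Gamma (w + a) / (Real.sqrt (2 * Real.pi) * exp ((w + a - 1 / 2) * log (w + a) - (w + a)))
  have e6 : q * exp E - 1 = (q - 1) * exp E + (exp E - 1) := by ring
  rw [e6]
  refine (norm_add_le _ _).trans ?_
  rw [norm_mul]
  have hq : ‖q - 1‖ ≤ 2 * C1 / (lam * |s.im|) := by
    refine hS.trans ?_
    rw [div_le_div_iff₀ hzpos (by positivity)]
    nlinarith
  have hexpE : ‖exp E‖ ≤ Real.exp K := by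
    rw [norm_exp]
    exact Real.exp_le_exp.mpr ((le_abs_self _).trans ((abs_re_le_norm E).trans hEK))
  have hexpE1 : ‖exp E - 1‖ ≤ K / (lam * |s.im|) * Real.exp K := by
    refine (norm_exp_sub_one_le' E).trans ?_
    gcongr
  have h7 : ‖q - 1‖ * ‖exp E‖ + ‖exp E - 1‖ ≤
      2 * C1 / (lam * |s.im|) * Real.exp K + K / (lam * |s.im|) * Real.exp K := by gcongr
  refine h7.trans ?_
  have h8 : 2 * C1 / (lam * |s.im|) * Real.exp K + K / (lam * |s.im|) * Real.exp K =
      ((2 * C1 + K) * Real.exp K / lam) / |s.im| := by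
    field_simp
  rw [h8]
  gcongr
  linarith

end Pool.Agent.Helper22.BD
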